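import Pool.Agent.Torelli.C.Main
import Pool.Agent.Torelli.Fin.Closed

/-!
# Torelli / C / Stmt : part C in the form used by the assembly
-/

set_option autoImplicit false

namespace Pool.Agent.Torelli

theorem cprod_zero (g : ℕ) (X : ℕ → F) : cprod 0 g X = C.comP X g := by
  unfold cprod C.comP
  simp only [zero_add]

/-- Part C. -/
theorem closedStmt : ClosedStmt := by
  intro g hg X hX hN
  rw [cprod_zero] at hN
  obtain ⟨X', f, h1, h2⟩ := C.closed_lift hg X hX hN
  refine ⟨X', f, ?_, by rw [cprod_zero]; exact h2⟩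
  intro n hn
  have h := h1 n hn
  have h3 := (Subgroup.normalClosure_normal (s := ({zeta 0 g} : Set F))).conj_mem _ h (X n)⁻¹
  have e : (X n)⁻¹ * (X' n * (X n)⁻¹) * (X n)⁻¹⁻¹ = (X n)⁻¹ * X' n := by group
  rwa [e] at h3

end Pool.Agent.Torelli
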