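import Pool.Agent.Torelli.C.State

/-!
# Torelli / C / Heis : a Heisenberg group and the alternating form
-/

set_option autoImplicit false

namespace Pool.Agent.Torelli.C

/-- Heisenberg group over the integers. -/
@[ext] structure Hs where
  a : ℤ
  b : ℤ
  c : ℤ

namespace Hs

instance : Mul Hs := ⟨fun x y => ⟨x.a + y.a, x.b + y.b, x.c + y.c + x.a * y.b⟩⟩
instance : One Hs := ⟨⟨0, 0, 0⟩⟩
instance : Inv Hs := ⟨fun x => ⟨-x.a, -x.b, -x.c + x.a * x.b⟩⟩

@[simp] theorem mul_a (x y : Hs) : (x * y).a = x.a + y.a := rfl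
@[simp] theorem mul_b (x y : Hs) : (x * y).b = x.b + y.b := rfl
@[simp] theorem mul_c (x y : Hs) : (x * y).c = x.c + y.c + x.a * y.b := rfl
@[simp] theorem one_a : (1 : Hs).a = 0 := rfl
@[simp] theorem one_b : (1 : Hs).b = 0 := rfl
@[simp] theorem one_c : (1 : Hs).c = 0 := rfl
@[simp] theorem inv_a (x : Hs) : (x⁻¹).a = -x.a := rfl
@[simp] theorem inv_b (x : Hs) : (x⁻¹).b = -x.b := rfl
@[simp] theorem inv_c (x : Hs) : (x⁻¹).c = -x.c + x.a * x.b := rfl

instance : Group Hs := Group.ofLeftAxioms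
  (by intro x y z; ext <;> simp <;> ring)
  (by intro x; ext <;> simp)
  (by intro x; ext <;> simp)

end Hs

/-- The alternating form on the first `2 * g` coordinates. -/
def om (g : ℕ) (u v : ℕ → ℤ) : ℤ :=
  ((List.range g).map fun j => u (2 * j) * v (2 * j + 1) - u (2 * j + 1) * v (2 * j)).sum

theorem om_succ (g : ℕ) (u v : ℕ → ℤ) :
    om (g + 1) u v = om g u v + (u (2 * g) * v (2 * g + 1) - u (2 * g + 1) * v (2 * g)) := by
  simp [om, List.range_succ]

theorem om_congr {g : ℕ} {u u' v v' : ℕ → ℤ} (hu : ∀ y < 2 * g, u y = u' y)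
    (hv : ∀ y < 2 * g, v y = v' y) : om g u v = om g u' v' := by
  unfold om
  congr 1
  apply List.map_congr_left
  intro j hj
  have hj' := List.mem_range.1 hj
  rw [hu (2 * j) (by omega), hu (2 * j + 1) (by omega), hv (2 * j) (by omega),
    hv (2 * j + 1) (by omega)]

theorem om_add_left (g : ℕ) (u u' v : ℕ → ℤ) :
    om g (fun y => u y + u' y) v = om g u v + om g u' v := by
  induction g with
  | zero => simp [om]
  | succ g ih => rw [om_succ, om_succ, om_succ, ih]; ring

theorem om_add_right (g : ℕ) (u v v' : ℕ → ℤ) :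
    om g u (fun y => v y + v' y) = om g u v + om g u v' := by
  induction g with
  | zero => simp [om]
  | succ g ih => rw [om_succ, om_succ, om_succ, ih]; ring

theorem om_swap (g : ℕ) (u v : ℕ → ℤ) : om g u v = - om g v u := by
  induction g with
  | zero => simp [om]
  | succ g ih => rw [om_succ, om_succ, ih]; ring

theorem om_zero_left (g : ℕ) (v : ℕ → ℤ) : om g (fun _ => 0) v = 0 := by
  induction g with
  | zero => simp [om]
  | succ g ih => rw [om_succ, ih]; ring

theorem om_zero_right (g : ℕ) (v : ℕ → ℤ) : om g v (fun _ => 0) = 0 := by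
  rw [om_swap, om_zero_left]; ring

theorem om_unit (g : ℕ) (hg : 1 ≤ g) :
    om g (fun y => if y = 0 then 1 else 0) (fun y => if y = 1 then 1 else 0) = 1 := by
  induction g with
  | zero => omega
  | succ g ih =>
    rw [om_succ]
    by_cases h : g = 0
    · subst h; simp [om]
    · rw [ih (by omega)]
      have h1 : ¬ (2 * g = 0) := by omega
      have h2 : ¬ (2 * g + 1 = 0) := by omega
      simp [h]

theorem comP_Hs (X : ℕ → Hs) (g : ℕ) :
    comP X g = ⟨0, 0, om g (fun y => (X y).a) (fun y => (X y).b)⟩ := by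
  induction g with
  | zero => rfl
  | succ g ih =>
    rw [comP_succ, ih, om_succ]
    ext <;> simp <;> ring

/-- Homomorphism to the Heisenberg group. -/
def Phi (u v : ℕ → ℤ) : FreeGroup ℕ →* Hs := FreeGroup.lift fun m => ⟨u m, v m, 0⟩

/-- Signed value of a label. -/
def sv (u : ℕ → ℤ) (x : ℕ × Bool) : ℤ := if x.2 then u x.1 else - u x.1

theorem Phi_a (u v : ℕ → ℤ) (x : ℕ × Bool) : (Phi u v (FreeGroup.mk [x])).a = sv u x := by
  obtain ⟨n, c⟩ := x
  cases c <;> simp [Phi, sv]

theorem Phi_b (u v : ℕ → ℤ) (x : ℕ × Bool) : (Phi u v (FreeGroup.mk [x])).b = sv v x := by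
  obtain ⟨n, c⟩ := x
  cases c <;> simp [Phi, sv]

theorem Phi_zeta (u v : ℕ → ℤ) (g : ℕ) : Phi u v (zeta 0 g) = ⟨0, 0, om g u v⟩ := by
  rw [← mk_zl, Phi, lift_zl, comP_Hs]

theorem list_prod_a (L : List Hs) : L.prod.a = (L.map Hs.a).sum := by
  induction L with
  | nil => rfl
  | cons x L ih => simp [ih]

theorem list_prod_b (L : List Hs) : L.prod.b = (L.map Hs.b).sum := by
  induction L with
  | nil => rfl
  | cons x L ih => simp [ih]

theorem conj_central (x : Hs) (t : ℤ) : x * ⟨0, 0, t⟩ * x⁻¹ = ⟨0, 0, t⟩ := by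
  ext <;> simp
  ring

theorem prod_central (L : List ℤ) : (L.map (fun t => (⟨0, 0, t⟩ : Hs))).prod = ⟨0, 0, L.sum⟩ := by
  induction L with
  | nil => rfl
  | cons x L ih => rw [List.map_cons, List.prod_cons, ih]; ext <;> simp

/-- The linear algebra at the end of the closed lifting. -/
theorem lin_end {g : ℕ} (hg : 1 ≤ g) (Ain Aout : (ℕ → ℤ) → ℕ → ℤ) (mp mm : ℤ) (hmp : 0 ≤ mp)
    (H : ∀ u1 u2 v1 v2 : ℕ → ℤ, om g (fun y => Ain u1 y + Aout u2 y) (fun y => Ain v1 y + Aout v2 y)
      + mp * om g u1 v1 - mm * om g u2 v2 = 0)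
    (H2 : ∀ u : ℕ → ℤ, ∀ y < 2 * g, Ain u y + Aout u y = u y)
    (H3 : ∀ y, Ain (fun _ => 0) y = 0) (H4 : ∀ y, Aout (fun _ => 0) y = 0) : mp = 0 ∧ mm = 1 := by
  have hAin : Ain (fun _ => 0) = fun _ => 0 := funext H3
  have hAout : Aout (fun _ => 0) = fun _ => 0 := funext H4
  have i1 : ∀ u v, om g (Ain u) (Ain v) = - mp * om g u v := by
    intro u v
    have := H u (fun _ => 0) v (fun _ => 0)
    rw [hAout, om_zero_left] at this
    simp only [add_zero] at this
    linarith
  have i2 : ∀ u v, om g (Aout u) (Aout v) = mm * om g u v := by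
    intro u v
    have := H (fun _ => 0) u (fun _ => 0) v
    rw [hAin, om_zero_left] at this
    simp only [zero_add] at this
    linarith
  have i3 : ∀ u v, om g (Ain u) (Aout v) = 0 := by
    intro u v
    have := H u (fun _ => 0) (fun _ => 0) v
    rw [hAin, hAout, om_zero_left, om_zero_right] at this
    simp only [zero_add, add_zero] at this
    linarith
  have i4 : ∀ u v, om g (Aout u) (Ain v) = 0 := by
    intro u v
    have := H (fun _ => 0) u v (fun _ => 0)
    rw [hAin, hAout, om_zero_left, om_zero_right] at this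
    simp only [zero_add, add_zero] at this
    linarith
  have j1 : ∀ u v, om g u (Aout v) = mm * om g u v := by
    intro u v
    have : om g u (Aout v) = om g (fun y => Ain u y + Aout u y) (Aout v) :=
      om_congr (fun y hy => (H2 u y hy).symm) (fun _ _ => rfl)
    rw [this, om_add_left, i3, i2]; ring
  have j2 : ∀ u v, om g u (Ain v) = - mp * om g u v := by
    intro u v
    have : om g u (Ain v) = om g (fun y => Ain u y + Aout u y) (Ain v) :=
      om_congr (fun y hy => (H2 u y hy).symm) (fun _ _ => rfl)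
    rw [this, om_add_left, i4, i1]; ring
  set e0 : ℕ → ℤ := fun y => if y = 0 then 1 else 0 with he0
  set e1 : ℕ → ℤ := fun y => if y = 1 then 1 else 0 with he1
  have hu : om g e0 e1 = 1 := om_unit g hg
  have k1 : om g e0 e1 = om g e0 (fun y => Ain e1 y + Aout e1 y) :=
    om_congr (fun _ _ => rfl) (fun y hy => (H2 e1 y hy).symm)
  rw [om_add_right, j1, j2, hu] at k1
  have k2 : om g (Ain e1) (Aout e0) = mm * om g (Ain e1) e0 := j1 _ _
  rw [i3, om_swap g (Ain e1) e0, j2, hu] at k2
  have k3 : mm = mp + 1 := by linarith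
  have k4 : mm * mp = 0 := by linarith
  rw [k3] at k4
  have k5 : mp = 0 := by nlinarith
  exact ⟨k5, by linarith⟩

end Pool.Agent.Torelli.C
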