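import Pool.Agent.Torelli.C.Reduce
import Pool.Agent.Torelli.C.Heis

/-!
# Torelli / C / Count : without a string between a positive and a negative face there is one face, a negative one
-/

set_option autoImplicit false

namespace Pool.Agent.Torelli.C

theorem sum_ite_split (L : List ℕ) (P : ℕ → Bool) (s t : ℤ) :
    (L.map fun l => if P l then s else -t).sum =
      ((L.filter P).length : ℤ) * s - ((L.filter fun l => !P l).length : ℤ) * t := by
  induction L with
  | nil => simp
  | cons x L ih =>
    rw [List.map_cons, List.sum_cons, ih]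
    cases h : P x
    · simp [h]; ring
    · simp [h]; ring

theorem list_sum_add (L : List ℕ) (f h : ℕ → ℤ) :
    (L.map fun k => f k + h k).sum = (L.map f).sum + (L.map h).sum := by
  induction L with
  | nil => simp
  | cons x L ih => simp [ih]; ring

/-- Evaluation of a word at a function on letters. -/
theorem Phi_a_word (u v : ℕ → ℤ) (L : List (ℕ × Bool)) :
    (Phi u v (FreeGroup.mk L)).a = ((List.range L.length).map fun k => sv u (L.getD k (0, true))).sum := by
  rw [mk_eq_prod, map_list_prod, list_prod_a, List.map_map, List.map_map]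
  rw [map_range_getD L (fun x => sv u x)]
  congr 1
  apply List.map_congr_left
  intro x _
  exact Phi_a u v x

theorem count {g n : ℕ} {X U : ℕ → F} {sg : ℕ → Bool} {p : Pos → Pos} (hg : 1 ≤ g)
    (hX : ∀ u : ℕ → ℤ, ∀ y < 2 * g, (Phi u (fun _ => 0) (X y)).a = u y)
    (hp : ∀ k ∈ posQ (Vw g X U) (Sw g sg) (allQ g n),
      p k ∈ posQ (Vw g X U) (Sw g sg) (allQ g n) ∧ p (p k) = k ∧
        lab (Vw g X U) (Sw g sg) (p k) = flipL (lab (Vw g X U) (Sw g sg) k))
    (hval : ∀ (G : Type) [Group G] (val : Pos → G),
      (∀ k ∈ posQ (Vw g X U) (Sw g sg) (allQ g n), val (p k) = (val k)⁻¹) →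
        (∀ y k, val (Pos.t y k false) = (val (Pos.t y k true))⁻¹) →
        evalQ (newV (Vw g X U) val) (newS (Sw g sg) val) (allQ g n) = 1)
    (hno : ∀ (O : Set Pos) (l0 k0 l1 k1 : ℕ), sg l0 = true →
      IsStr (Vw g X U) (Sw g sg) (allQ g n) p O (Pos.f l0 k0) (Pos.f l1 k1) → sg l1 = true) :
    ((List.range n).filter sg).length = 0 ∧ ((List.range n).filter fun l => !sg l).length = 1 := by
  classical
  set V := Vw g X U with hV
  set S := Sw g sg with hS
  set P := posQ V S (allQ g n) with hP
  set K : Set Pos := {x | ∃ (O : Set Pos) (l0 k0 : ℕ) (f1 : Pos), sg l0 = true ∧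
    IsStr V S (allQ g n) p O (Pos.f l0 k0) f1 ∧ x ∈ O} with hK
  have hKp : ∀ x ∈ K, p x ∈ K := by
    rintro x ⟨O, l0, k0, f1, h1, h2, h3⟩
    exact ⟨O, l0, k0, f1, h1, h2, h2.pair x h3⟩
  have hKt : ∀ x ∈ K, tw x ∈ K := by
    rintro x ⟨O, l0, k0, f1, h1, h2, h3⟩
    exact ⟨O, l0, k0, f1, h1, h2, h2.twin x h3⟩
  have hKp' : ∀ x ∈ P, (x ∈ K ↔ p x ∈ K) := by
    intro x hx
    constructor
    · exact hKp x
    · intro h
      have := hKp _ h
      rwa [(hp x hx).2.1] at this
  have hKt' : ∀ x, (x ∈ K ↔ tw x ∈ K) := by
    intro x
    constructor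
    · exact hKt x
    · intro h
      have := hKt _ h
      rwa [tw_tw] at this
  have hKf : ∀ l k, Pos.f l k ∈ P → (Pos.f l k ∈ K ↔ sg l = true) := by
    intro l k hlk
    constructor
    · rintro ⟨O, l0, k0, f1, h1, h2, h3⟩
      rcases h2.faces _ h3 trivial with h | h
      · injection h with h4 h5; rw [h4]; exact h1
      · rw [← h] at h2
        exact hno O l0 k0 l k h1 h2
    · intro hl
      obtain ⟨O, f1, h⟩ := exists_isStr hp (allQ_twin g n) (Pos.f l k) hlk trivial
      exact ⟨O, l, k, f1, hl, h, h.mem0⟩
  -- the operators
  set Ain : (ℕ → ℤ) → ℕ → ℤ := fun u y => ((List.range (V y).length).map fun k =>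
    if Pos.t y k true ∈ K then sv u (lab V S (Pos.t y k true)) else 0).sum with hAin
  set Aout : (ℕ → ℤ) → ℕ → ℤ := fun u y => ((List.range (V y).length).map fun k =>
    if Pos.t y k true ∈ K then 0 else sv u (lab V S (Pos.t y k true))).sum with hAout
  have main : ∀ u1 u2 v1 v2 : ℕ → ℤ,
      om g (fun y => Ain u1 y + Aout u2 y) (fun y => Ain v1 y + Aout v2 y)
      + ((List.range n).filter sg).length * om g u1 v1
      - ((List.range n).filter fun l => !sg l).length * om g u2 v2 = 0 := by
    intro u1 u2 v1 v2
    set val : Pos → Hs := fun x => if x ∈ K then Phi u1 v1 (FreeGroup.mk [lab V S x])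
      else Phi u2 v2 (FreeGroup.mk [lab V S x]) with hvaldef
    have hinv : ∀ x x', (x ∈ K ↔ x' ∈ K) → lab V S x' = flipL (lab V S x) →
        val x' = (val x)⁻¹ := by
      intro x x' h1 h2
      by_cases h : x ∈ K
      · have h' := h1.1 h
        simp only [hvaldef, h, h', if_true, h2, mk_flip, map_inv]
      · have h' : x' ∉ K := fun hh => h (h1.2 hh)
        simp only [hvaldef, h, h', if_false, h2, mk_flip, map_inv]
    have hres := hval Hs val (fun k hk => hinv k (p k) (hKp' k hk) (hp k hk).2.2)
      (fun y k => hinv _ _ (hKt' _) (by simp [lab]))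
    rw [evalQ_allQ, comP_Hs] at hres
    have hface : ∀ l ∈ List.range n, newV V val (2 * g + l) * newS S val l * (newV V val (2 * g + l))⁻¹
        = (fun t => (⟨0, 0, t⟩ : Hs)) (if sg l then om g u1 v1 else - om g u2 v2) := by
      intro l hl
      have hl' := List.mem_range.1 hl
      have e : newS S val l = ⟨0, 0, if sg l then om g u1 v1 else - om g u2 v2⟩ := by
        have hmemP : ∀ k ∈ List.range (S l).length, Pos.f l k ∈ P := by
          intro k hk
          exact (mem_posQ_f V S _ l k).2 ⟨(face_mem_allQ g n l).2 hl', List.mem_range.1 hk⟩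
        cases hsl : sg l
        · have e1 : newS S val l = Phi u2 v2 (FreeGroup.mk (S l)) := by
            rw [mk_eq_prod, ← map_range_getD (S l) (fun x => (FreeGroup.mk [x] : F)), map_list_prod,
              List.map_map]
            unfold newS
            congr 1
            apply List.map_congr_left
            intro k hk
            have : Pos.f l k ∉ K := by
              rw [hKf l k (hmemP k hk), hsl]; simp
            simp only [hvaldef, this, if_false, Function.comp]
            rfl
          rw [e1, hS, mk_Sw, hsl]
          simp only [zs, Bool.false_eq_true, if_false, map_inv, Phi_zeta]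
          ext <;> simp
        · have e1 : newS S val l = Phi u1 v1 (FreeGroup.mk (S l)) := by
            rw [mk_eq_prod, ← map_range_getD (S l) (fun x => (FreeGroup.mk [x] : F)), map_list_prod,
              List.map_map]
            unfold newS
            congr 1
            apply List.map_congr_left
            intro k hk
            have : Pos.f l k ∈ K := by
              rw [hKf l k (hmemP k hk), hsl]
            simp only [hvaldef, this, if_true, Function.comp]
            rfl
          rw [e1, hS, mk_Sw, hsl]
          simp only [zs, if_true, Phi_zeta]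
      rw [e, conj_central]
    have hmap : (List.range n).map (fun l => newV V val (2 * g + l) * newS S val l *
        (newV V val (2 * g + l))⁻¹) = ((List.range n).map
        (fun l => if sg l then om g u1 v1 else - om g u2 v2)).map (fun t => (⟨0, 0, t⟩ : Hs)) := by
      rw [List.map_map]
      exact List.map_congr_left hface
    rw [hmap, prod_central, sum_ite_split] at hres
    have hc := congrArg Hs.c hres
    simp only [Hs.mul_c, Hs.one_c, zero_mul, add_zero] at hc
    have ea : (fun y => (newV V val y).a) = fun y => Ain u1 y + Aout u2 y := by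
      funext y
      simp only [newV, list_prod_a, List.map_map, hAin, hAout]
      rw [← list_sum_add]
      congr 1
      apply List.map_congr_left
      intro k _
      by_cases h : Pos.t y k true ∈ K
      · simp only [hvaldef, h, if_true, Function.comp, Phi_a, add_zero]
      · simp only [hvaldef, h, if_false, Function.comp, Phi_a, zero_add]
    have eb : (fun y => (newV V val y).b) = fun y => Ain v1 y + Aout v2 y := by
      funext y
      simp only [newV, list_prod_b, List.map_map, hAin, hAout]
      rw [← list_sum_add]
      congr 1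
      apply List.map_congr_left
      intro k _
      by_cases h : Pos.t y k true ∈ K
      · simp only [hvaldef, h, if_true, Function.comp, Phi_b, add_zero]
      · simp only [hvaldef, h, if_false, Function.comp, Phi_b, zero_add]
    rw [ea, eb] at hc
    linarith
  have hsum : ∀ u : ℕ → ℤ, ∀ y < 2 * g, Ain u y + Aout u y = u y := by
    intro u y hy
    rw [← hX u y hy, ← mk_Vw_lt g X U hy, Phi_a_word]
    simp only [hAin, hAout]
    rw [← list_sum_add]
    congr 1
    apply List.map_congr_left
    intro k _
    by_cases h : Pos.t y k true ∈ K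
    · simp only [h, if_true, add_zero]; rfl
    · simp only [h, if_false, zero_add]; rfl
  have hzero : ∀ x : ℕ × Bool, sv (fun _ => 0) x = 0 := by
    intro x; simp [sv]
  obtain ⟨h1, h2⟩ := lin_end hg Ain Aout _ _ (by positivity) main hsum
    (by intro y; simp [hAin, hzero]) (by intro y; simp [hAout, hzero])
  exact ⟨by exact_mod_cast h1, by exact_mod_cast h2⟩

end Pool.Agent.Torelli.C
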