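import Pool.Agent.Torelli.C.Count
import Pool.Agent.Torelli.Basic

/-!
# Torelli / C / Main : closed lifting

If `X n` has the homology class of the letter `n` for `n < 2 g` and `prod [X(2j), X(2j+1)]` is in the normal
closure of `zeta 0 g`, then the `X n` can be changed modulo this normal closure such that the product becomes
a conjugate of `zeta 0 g`.
-/

set_option autoImplicit false

namespace Pool.Agent.Torelli.C

/-- The product of the faces. -/
def fprod (g : ℕ) (fs : List (F × Bool)) : F := (fs.map fun q => q.1 * zs g q.2 * q.1⁻¹).prod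

theorem fprod_append (g : ℕ) (fs fs' : List (F × Bool)) :
    fprod g (fs ++ fs') = fprod g fs * fprod g fs' := by
  simp [fprod]

theorem zs_not (g : ℕ) (c : Bool) : zs g (!c) = (zs g c)⁻¹ := by
  cases c <;> simp [zs]

theorem exists_fprod_inv (g : ℕ) (fs : List (F × Bool)) :
    ∃ fs' : List (F × Bool), fprod g fs' = (fprod g fs)⁻¹ := by
  refine ⟨(fs.map fun q => (q.1, !q.2)).reverse, ?_⟩
  unfold fprod
  rw [List.prod_inv_reverse, List.map_map, List.map_reverse, List.map_map]
  congr 2
  apply List.map_congr_left
  intro q _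
  simp only [Function.comp, zs_not]
  group

theorem exists_fprod (g : ℕ) (x : F) (hx : x ∈ Subgroup.normalClosure {zeta 0 g}) :
    ∃ fs : List (F × Bool), fprod g fs = x := by
  unfold Subgroup.normalClosure at hx
  induction hx using Subgroup.closure_induction with
  | mem x hx =>
    rw [Group.mem_conjugatesOfSet_iff] at hx
    obtain ⟨y, hy, hc⟩ := hx
    rw [Set.mem_singleton_iff] at hy
    subst hy
    obtain ⟨c, hc⟩ := isConj_iff.1 hc
    exact ⟨[(c, true)], by simp [fprod, zs, hc]⟩
  | one => exact ⟨[], rfl⟩
  | mul x y _ _ hx hy =>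
    obtain ⟨fs, hfs⟩ := hx
    obtain ⟨fs', hfs'⟩ := hy
    exact ⟨fs ++ fs', by rw [fprod_append, hfs, hfs']⟩
  | inv x _ hx =>
    obtain ⟨fs, hfs⟩ := hx
    obtain ⟨fs', hfs'⟩ := exists_fprod_inv g fs
    exact ⟨fs', by rw [hfs', hfs]⟩

theorem range_getD' (fs : List (F × Bool)) :
    (List.range fs.length).map (fun k => fs.getD k (1, true)) = fs := by
  apply List.ext_getElem
  · simp
  · intro i h1 h2
    simp [List.getD, h2]

theorem prod_filter (L : List ℕ) (P : ℕ → Bool) (f : ℕ → F) (h : ∀ l ∈ L, P l = false → f l = 1) :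
    (L.map f).prod = ((L.filter P).map f).prod := by
  induction L with
  | nil => simp
  | cons x L ih =>
    rw [List.map_cons, List.prod_cons, ih (fun l hl => h l (by simp [hl]))]
    cases hx : P x
    · rw [List.filter_cons_of_neg (by simp [hx]), h x (by simp) hx, one_mul]
    · rw [List.filter_cons_of_pos (by simp [hx]), List.map_cons, List.prod_cons]

/-- The homomorphism `x ↦ (Phi u 0 x).a`. -/
def PhiA (u : ℕ → ℤ) : F →* Multiplicative ℤ where
  toFun x := Multiplicative.ofAdd (Phi u (fun _ => 0) x).a
  map_one' := by simp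
  map_mul' x y := by simp

theorem PhiA_of_cl (u : ℕ → ℤ) {x y : F} (h : cl x = cl y) :
    (Phi u (fun _ => 0) x).a = (Phi u (fun _ => 0) y).a := by
  have h1 := cl_eq_iff.1 h
  have h2 : PhiA u x = PhiA u y := by
    rw [← Abelianization.lift_apply_of (PhiA u) x, ← Abelianization.lift_apply_of (PhiA u) y, h1]
  exact h2

theorem cl_of_mem {g : ℕ} {x : F} (h : x ∈ Subgroup.normalClosure {zeta 0 g}) : cl x = 1 := by
  have h1 : Subgroup.normalClosure {zeta 0 g} ≤ (cl : F →* _).ker := by
    apply Subgroup.normalClosure_le_normal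
    intro y hy
    rw [Set.mem_singleton_iff] at hy
    subst hy
    exact cl_zeta 0 g
  exact h1 h

theorem main_ind {g : ℕ} (hg : 1 ≤ g) : ∀ (k : ℕ) (fs : List (F × Bool)), fs.length = k →
    ∀ X : ℕ → F, (∀ n < 2 * g, cl (X n) = cl (FreeGroup.of n)) → comP X g * fprod g fs = 1 →
      ∃ (X' : ℕ → F) (f : F), (∀ n < 2 * g, X' n * (X n)⁻¹ ∈ Subgroup.normalClosure {zeta 0 g}) ∧
        comP X' g = f * zeta 0 g * f⁻¹ := by
  intro k
  induction k using Nat.strong_induction_on with
  | _ k ih =>
    intro fs hk X hX hrel
    set n := fs.length with hn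
    set U : ℕ → F := fun l => (fs.getD l (1, true)).1 with hU
    set sg : ℕ → Bool := fun l => (fs.getD l (1, true)).2 with hsg
    have hprod : fprod g fs = ((List.range n).map fun l => U l * zs g (sg l) * (U l)⁻¹).prod := by
      unfold fprod
      conv_lhs => rw [← range_getD' fs]
      rw [List.map_map]
      rfl
    have hR : Rel g n X U sg := by
      unfold Rel
      rw [← hprod]
      exact hrel
    obtain ⟨p, hp, hval⟩ := transfer (Vw g X U) (Sw g sg) (allQ g n) (nodup_allQ g n) (rel_evalQ hR)
    by_cases hpm : ∃ (O : Set Pos) (l0 k0 l1 k1 : ℕ), sg l0 = true ∧ sg l1 = false ∧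
        IsStr (Vw g X U) (Sw g sg) (allQ g n) p O (Pos.f l0 k0) (Pos.f l1 k1)
    · obtain ⟨O, l0, k0, l1, k1, h0, h1, hO⟩ := hpm
      obtain ⟨X', U', hX', hrel'⟩ := reduce hp hval hO h0 h1
      set P : ℕ → Bool := fun l => decide (l ≠ l0 ∧ l ≠ l1) with hP
      set fs' : List (F × Bool) := ((List.range n).filter P).map fun l => (U' l, sg l) with hfs'
      have hl0 : l0 ∈ List.range n := by
        have := hO.sub _ hO.mem0
        rw [mem_posQ_f, face_mem_allQ] at this
        exact List.mem_range.2 this.1
      have hlen : fs'.length < k := by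
        rw [← hk, hfs', List.length_map]
        have : ((List.range n).filter P).length < (List.range n).length := by
          rw [List.length_filter_lt_length_iff_exists]
          exact ⟨l0, hl0, by simp [hP]⟩
        rw [List.length_range] at this
        exact this
      have hfp : fprod g fs' = ((List.range n).map fun l =>
          if l = l0 ∨ l = l1 then 1 else U' l * zs g (sg l) * (U' l)⁻¹).prod := by
        rw [prod_filter (List.range n) P _ (by
          intro l _ hl
          have : l = l0 ∨ l = l1 := by
            simp only [hP, decide_eq_false_iff_not] at hl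
            tauto
          simp only [this, if_true])]
        rw [fprod, hfs', List.map_map]
        congr 1
        apply List.map_congr_left
        intro l hl
        have h2 := (List.mem_filter.1 hl).2
        have : ¬ (l = l0 ∨ l = l1) := by
          simp only [hP, decide_eq_true_eq] at h2
          tauto
        simp only [this, if_false, Function.comp]
      have hcl : ∀ n < 2 * g, cl (X' n) = cl (FreeGroup.of n) := by
        intro m hm
        rw [← hX m hm]
        have := cl_of_mem (hX' m hm)
        rw [map_mul, map_inv] at this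
        exact mul_inv_eq_one.1 this
      obtain ⟨X'', f, h2, h3⟩ := ih fs'.length hlen fs' rfl X' hcl (by rw [hfp]; exact hrel')
      refine ⟨X'', f, ?_, h3⟩
      intro m hm
      have e : X'' m * (X m)⁻¹ = (X'' m * (X' m)⁻¹) * (X' m * (X m)⁻¹) := by group
      rw [e]
      exact Subgroup.mul_mem _ (h2 m hm) (hX' m hm)
    · have hno : ∀ (O : Set Pos) (l0 k0 l1 k1 : ℕ), sg l0 = true →
          IsStr (Vw g X U) (Sw g sg) (allQ g n) p O (Pos.f l0 k0) (Pos.f l1 k1) → sg l1 = true := by
        intro O l0 k0 l1 k1 h0 hO
        by_contra h1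
        exact hpm ⟨O, l0, k0, l1, k1, h0, by simpa using h1, hO⟩
      have hXa : ∀ u : ℕ → ℤ, ∀ y < 2 * g, (Phi u (fun _ => 0) (X y)).a = u y := by
        intro u y hy
        rw [PhiA_of_cl u (hX y hy)]
        simp [Phi]
      obtain ⟨c1, c2⟩ := count hg hXa hp hval hno
      have htot : n = ((List.range n).filter sg).length +
          ((List.range n).filter fun l => !sg l).length := by
        have := List.length_eq_length_filter_add (l := List.range n) sg
        rw [List.length_range] at this
        exact this
      have hn1 : n = 1 := by omega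
      have hs0 : sg 0 = false := by
        by_contra h
        have h' : sg 0 = true := by simpa using h
        rw [hn1] at c1
        simp [List.range_succ, h'] at c1
      refine ⟨X, U 0, ?_, ?_⟩
      · intro m _
        rw [mul_inv_cancel]
        exact Subgroup.one_mem _
      · unfold Rel at hR
        rw [hn1] at hR
        simp only [List.range_one, List.map_cons, List.map_nil, List.prod_cons, List.prod_nil,
          mul_one, hs0, zs, Bool.false_eq_true, if_false] at hR
        have : comP X g = (U 0 * (zeta 0 g)⁻¹ * (U 0)⁻¹)⁻¹ := mul_eq_one_iff_eq_inv.1 hR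
        rw [this]
        group

/-- Part C: closed lifting. -/
theorem closed_lift {g : ℕ} (hg : 1 ≤ g) (X : ℕ → F)
    (hX : ∀ n < 2 * g, cl (X n) = cl (FreeGroup.of n))
    (hN : comP X g ∈ Subgroup.normalClosure {zeta 0 g}) :
    ∃ (X' : ℕ → F) (f : F), (∀ n < 2 * g, X' n * (X n)⁻¹ ∈ Subgroup.normalClosure {zeta 0 g}) ∧
      comP X' g = f * zeta 0 g * f⁻¹ := by
  obtain ⟨fs, hfs⟩ := exists_fprod g _ (Subgroup.inv_mem _ hN)
  exact main_ind hg fs.length fs rfl X hX (by rw [hfs, mul_inv_cancel])

end Pool.Agent.Torelli.C
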