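import Mathlib

/-!
# Torelli / C / Pairing : non-crossing cancellation of a word that is trivial in a free group

If the labels of a list of (distinct) positions multiply to `1` in the free group, then the positions can be
paired by an involution `p` that inverts labels, in such a way that EVERY assignment of group elements which
is inverted by `p` has product `1` (the pairing is non-crossing).
-/

set_option autoImplicit false

namespace Pool.Agent.Torelli.C

/-- The inverse of a label. -/
def flipL {α : Type*} (x : α × Bool) : α × Bool := (x.1, !x.2)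

@[simp] theorem flipL_flipL {α : Type*} (x : α × Bool) : flipL (flipL x) = x := by
  simp [flipL]

theorem flipL_ne {α : Type*} (x : α × Bool) : flipL x ≠ x := by
  intro h
  have := congrArg Prod.snd h
  simp [flipL] at this

/-- A nonempty word with trivial value contains two adjacent cancelling letters. -/
theorem exists_adjacent {α : Type*} (L : List (α × Bool)) (hL : L ≠ []) (h : FreeGroup.mk L = 1) :
    ∃ (A B : List (α × Bool)) (x : α × Bool), L = A ++ x :: flipL x :: B := by
  have h1 : FreeGroup.Red L [] := by
    have h2 : FreeGroup.mk L = FreeGroup.mk [] := by rw [h]; rfl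
    obtain ⟨M, hM1, hM2⟩ := FreeGroup.Red.exact.1 h2
    have hM : M = [] := by
      have := FreeGroup.Red.nil_iff.1 hM2
      exact this
    rw [hM] at hM1
    exact hM1
  rcases Relation.ReflTransGen.cases_head h1 with h2 | ⟨L', h2, _⟩
  · exact absurd h2 hL
  · cases h2 with
    | @not L1 L2 x b => exact ⟨L1, L2, (x, b), rfl⟩

theorem mk_remove {α : Type*} (A B : List (α × Bool)) (x : α × Bool) :
    FreeGroup.mk (A ++ x :: flipL x :: B) = FreeGroup.mk (A ++ B) := by
  apply Quot.sound
  obtain ⟨y, b⟩ := x
  exact FreeGroup.Red.Step.not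

/-- Non-crossing pairing. -/
theorem exists_pairing {ι α : Type*} [DecidableEq ι] (lab : ι → α × Bool) :
    ∀ (ks : List ι), ks.Nodup → FreeGroup.mk (ks.map lab) = 1 →
      ∃ p : ι → ι, (∀ k ∈ ks, p k ∈ ks ∧ p (p k) = k ∧ lab (p k) = flipL (lab k)) ∧
        ∀ (G : Type) [Group G] (val : ι → G), (∀ k ∈ ks, val (p k) = (val k)⁻¹) →
          (ks.map val).prod = 1 := by
  intro ks
  induction hn : ks.length using Nat.strong_induction_on generalizing ks with
  | _ n ih =>
    intro hnd h
    by_cases hks : ks = []
    · subst hks
      exact ⟨id, by simp, by intro G _ val _; simp⟩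
    · obtain ⟨A, B, x, hL⟩ := exists_adjacent (ks.map lab) (by simpa using hks) h
      obtain ⟨ks1, ks', hks1, hA, hrest⟩ := List.map_eq_append_iff.1 hL
      obtain ⟨k1, ks2, hks2, hk1, hrest2⟩ := List.map_eq_cons_iff.1 hrest
      obtain ⟨k2, ks3, hks3, hk2, hB⟩ := List.map_eq_cons_iff.1 hrest2
      subst hks2 hks3 hks1
      have hnd' : (ks1 ++ ks3).Nodup := by
        refine List.Nodup.sublist ?_ hnd
        exact List.Sublist.append (List.Sublist.refl _)
          ((List.sublist_cons_self _ _).trans (List.sublist_cons_self _ _))
      have hmk : FreeGroup.mk ((ks1 ++ ks3).map lab) = 1 := by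
        rw [List.map_append, hA, hB, ← mk_remove A B x, ← hL]
        exact h
      have hlen : (ks1 ++ ks3).length < n := by
        rw [← hn]; simp
      obtain ⟨p, hp1, hp2⟩ := ih _ hlen (ks1 ++ ks3) rfl hnd' hmk
      have hnd2 := hnd
      rw [List.nodup_append] at hnd2
      obtain ⟨hn1, hn2, hn3⟩ := hnd2
      rw [List.nodup_cons, List.nodup_cons] at hn2
      obtain ⟨hk1n, hk2n, hn3'⟩ := hn2
      have hk12 : k1 ≠ k2 := fun hh => hk1n (by simp [hh])
      have hk1A : k1 ∉ ks1 := fun hh => hn3 k1 hh k1 (by simp) rfl
      have hk2A : k2 ∉ ks1 := fun hh => hn3 k2 hh k2 (by simp) rfl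
      have hk1B : k1 ∉ ks3 := fun hh => hk1n (by simp [hh])
      have hk1' : k1 ∉ ks1 ++ ks3 := by simp [hk1A, hk1B]
      have hk2' : k2 ∉ ks1 ++ ks3 := by simp [hk2A, hk2n]
      have hmem : ∀ k, k ∈ ks1 ++ k1 :: k2 :: ks3 → k = k1 ∨ k = k2 ∨ k ∈ ks1 ++ ks3 := by
        intro k hk
        simp only [List.mem_append, List.mem_cons] at hk ⊢
        tauto
      refine ⟨fun k => if k = k1 then k2 else if k = k2 then k1 else p k, ?_, ?_⟩
      · intro k hk
        rcases hmem k hk with rfl | rfl | hk'
        · simp only [if_true]
          refine ⟨by simp, by simp [hk12.symm], ?_⟩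
          rw [hk2, hk1]
        · simp only [hk12.symm, if_false, if_true]
          refine ⟨by simp, trivial, ?_⟩
          rw [hk2, hk1, flipL_flipL]
        · have h1 : k ≠ k1 := fun hh => hk1' (hh ▸ hk')
          have h2 : k ≠ k2 := fun hh => hk2' (hh ▸ hk')
          obtain ⟨q1, q2, q3⟩ := hp1 k hk'
          have h3 : p k ≠ k1 := fun hh => hk1' (hh ▸ q1)
          have h4 : p k ≠ k2 := fun hh => hk2' (hh ▸ q1)
          simp only [h1, h2, h3, h4, if_false]
          refine ⟨?_, q2, q3⟩
          simp only [List.mem_append, List.mem_cons] at q1 ⊢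
          tauto
      · intro G _ val hval
        have hv1 : val k2 = (val k1)⁻¹ := by
          have := hval k1 (by simp)
          simpa using this
        have hrec := hp2 G val (by
          intro k hk'
          have h1 : k ≠ k1 := fun hh => hk1' (hh ▸ hk')
          have h2 : k ≠ k2 := fun hh => hk2' (hh ▸ hk')
          have := hval k (by
            simp only [List.mem_append, List.mem_cons] at hk' ⊢
            tauto)
          simpa [h1, h2] using this)
        rw [List.map_append, List.prod_append] at hrec
        rw [List.map_append, List.prod_append, List.map_cons, List.map_cons, List.prod_cons,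
          List.prod_cons, hv1, ← hrec]
        group

end Pool.Agent.Torelli.C
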