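import Pool.Agent.Torelli.C.State

/-!
# Torelli / C / Reduce : a string between a positive and a negative face removes both faces
-/

set_option autoImplicit false

namespace Pool.Agent.Torelli.C

/-- `zeta` or its inverse. -/
def zs (g : ℕ) (c : Bool) : F := if c then zeta 0 g else (zeta 0 g)⁻¹

/-- The words of the variables. -/
def Vw (g : ℕ) (X U : ℕ → F) (y : ℕ) : List (ℕ × Bool) :=
  if y < 2 * g then (X y).toWord else (U (y - 2 * g)).toWord

/-- The words of the faces. -/
def Sw (g : ℕ) (sg : ℕ → Bool) (l : ℕ) : List (ℕ × Bool) :=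
  if sg l then zl g else FreeGroup.invRev (zl g)

/-- The relation of a state. -/
def Rel (g n : ℕ) (X U : ℕ → F) (sg : ℕ → Bool) : Prop :=
  comP X g * ((List.range n).map fun l => U l * zs g (sg l) * (U l)⁻¹).prod = 1

theorem mk_Vw_lt (g : ℕ) (X U : ℕ → F) {y : ℕ} (h : y < 2 * g) : FreeGroup.mk (Vw g X U y) = X y := by
  simp [Vw, h, FreeGroup.mk_toWord]

theorem mk_Vw_tail (g : ℕ) (X U : ℕ → F) (l : ℕ) : FreeGroup.mk (Vw g X U (2 * g + l)) = U l := by
  have : ¬ (2 * g + l < 2 * g) := by omega
  simp [Vw, this, FreeGroup.mk_toWord]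

theorem mk_Sw (g : ℕ) (sg : ℕ → Bool) (l : ℕ) : FreeGroup.mk (Sw g sg l) = zs g (sg l) := by
  cases h : sg l
  · simp only [Sw, zs, h, Bool.false_eq_true, if_false]
    rw [← FreeGroup.inv_mk, mk_zl]
  · simp only [Sw, zs, h, if_true]
    exact mk_zl g

theorem comP_congr {G : Type*} [Group G] {X Y : ℕ → G} {g : ℕ} (h : ∀ y < 2 * g, X y = Y y) :
    comP X g = comP Y g := by
  unfold comP
  congr 1
  apply List.map_congr_left
  intro j hj
  have hj' := List.mem_range.1 hj
  rw [h (2 * j) (by omega), h (2 * j + 1) (by omega)]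

theorem rel_evalQ {g n : ℕ} {X U : ℕ → F} {sg : ℕ → Bool} (h : Rel g n X U sg) :
    evalQ (fun y => FreeGroup.mk (Vw g X U y)) (fun l => FreeGroup.mk (Sw g sg l)) (allQ g n) = 1 := by
  rw [evalQ_allQ, ← h]
  congr 1
  · exact comP_congr (fun y hy => mk_Vw_lt g X U hy)
  · congr 1
    apply List.map_congr_left
    intro l _
    rw [mk_Vw_tail, mk_Sw]

/-- The twin condition on the syllables. -/
theorem allQ_twin (g n : ℕ) : ∀ y c, Syl.v y c ∈ allQ g n → Syl.v y (!c) ∈ allQ g n := by
  intro y c h
  rw [v_mem_allQ] at h ⊢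
  exact h

open Classical in
/-- The replaced values. -/
noncomputable def rval (V S : ℕ → List (ℕ × Bool)) (O : Set Pos) (y : ℕ × Bool) (c : F) (x : Pos) : F :=
  if x ∈ O then (if lab V S x = y then c else c⁻¹) else FreeGroup.mk [lab V S x]

theorem rval_inv {V S : ℕ → List (ℕ × Bool)} {O : Set Pos} {y : ℕ × Bool} {c : F} {x x' : Pos}
    (hO : x ∈ O ↔ x' ∈ O) (hl : lab V S x' = flipL (lab V S x))
    (hy : x ∈ O → lab V S x = y ∨ lab V S x = flipL y) :
    rval V S O y c x' = (rval V S O y c x)⁻¹ := by
  unfold rval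
  by_cases h : x ∈ O
  · have h' := hO.1 h
    rw [if_pos h, if_pos h', hl]
    rcases hy h with h1 | h1
    · rw [h1, if_pos rfl, if_neg (flipL_ne y)]
    · rw [h1, flipL_flipL, if_pos rfl, if_neg (flipL_ne y), inv_inv]
  · have h' : x' ∉ O := fun hh => h (hO.2 hh)
    rw [if_neg h, if_neg h', hl, mk_flip]

theorem prod_replace (L : List (ℕ × Bool)) (T D : List (ℕ × Bool)) (y : ℕ × Bool) (hL : L = T ++ y :: D)
    (hnd : L.Nodup) (c : F) [DecidableEq (ℕ × Bool)] :
    (L.map (fun x => if x = y then c else FreeGroup.mk [x])).prod =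
      FreeGroup.mk T * c * FreeGroup.mk D := by
  subst hL
  rw [List.nodup_append] at hnd
  obtain ⟨_, h2, h3⟩ := hnd
  rw [List.nodup_cons] at h2
  have hT : ∀ x ∈ T, x ≠ y := fun x hx hxy => h3 x hx y (by simp) hxy
  have hD : ∀ x ∈ D, x ≠ y := fun x hx hxy => h2.1 (hxy ▸ hx)
  rw [List.map_append, List.prod_append, List.map_cons, List.prod_cons, if_pos rfl,
    mk_eq_prod T, mk_eq_prod D]
  rw [List.map_congr_left (g := fun x => FreeGroup.mk [x]) (l := T)
    (fun x hx => by simp [hT x hx])]
  rw [List.map_congr_left (g := fun x => FreeGroup.mk [x]) (l := D)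
    (fun x hx => by simp [hD x hx])]
  group

theorem map_range_getD {β : Type*} (L : List (ℕ × Bool)) (f : ℕ × Bool → β) :
    (List.range L.length).map (fun k => f (L.getD k (0, true))) = L.map f := by
  conv_rhs => rw [← range_getD L]
  rw [List.map_map]
  rfl

theorem getD_inj {L : List (ℕ × Bool)} (hnd : L.Nodup) {i j : ℕ} (hi : i < L.length)
    (hj : j < L.length) (h : L.getD i (0, true) = L.getD j (0, true)) : i = j := by
  have e1 : L.getD i (0, true) = L[i] := by simp [List.getD, hi]
  have e2 : L.getD j (0, true) = L[j] := by simp [List.getD, hj]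
  rw [e1, e2] at h
  exact (hnd.getElem_inj_iff).1 h

theorem getD_mem {L : List (ℕ × Bool)} {i : ℕ} (hi : i < L.length) : L.getD i (0, true) ∈ L := by
  have e1 : L.getD i (0, true) = L[i] := by simp [List.getD, hi]
  rw [e1]; exact List.getElem_mem hi

/-- Removing a positive and a negative face. -/
theorem reduce {g n : ℕ} {X U : ℕ → F} {sg : ℕ → Bool} {p : Pos → Pos}
    (hp : ∀ k ∈ posQ (Vw g X U) (Sw g sg) (allQ g n),
      p k ∈ posQ (Vw g X U) (Sw g sg) (allQ g n) ∧ p (p k) = k ∧
        lab (Vw g X U) (Sw g sg) (p k) = flipL (lab (Vw g X U) (Sw g sg) k))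
    (hval : ∀ (G : Type) [Group G] (val : Pos → G),
      (∀ k ∈ posQ (Vw g X U) (Sw g sg) (allQ g n), val (p k) = (val k)⁻¹) →
        (∀ y k, val (Pos.t y k false) = (val (Pos.t y k true))⁻¹) →
        evalQ (newV (Vw g X U) val) (newS (Sw g sg) val) (allQ g n) = 1)
    {O : Set Pos} {l0 k0 l1 k1 : ℕ}
    (hO : IsStr (Vw g X U) (Sw g sg) (allQ g n) p O (Pos.f l0 k0) (Pos.f l1 k1))
    (h0 : sg l0 = true) (h1 : sg l1 = false) :
    ∃ X' U' : ℕ → F, (∀ y < 2 * g, X' y * (X y)⁻¹ ∈ Subgroup.normalClosure {zeta 0 g}) ∧
      comP X' g * ((List.range n).map fun l =>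
        if l = l0 ∨ l = l1 then 1 else U' l * zs g (sg l) * (U' l)⁻¹).prod = 1 := by
  classical
  set V := Vw g X U with hV
  set S := Sw g sg with hS
  set P := posQ V S (allQ g n) with hP
  have hf0 := hO.sub _ hO.mem0
  have hf1 := hO.sub _ hO.mem1
  rw [mem_posQ_f, face_mem_allQ] at hf0 hf1
  have hS0 : S l0 = zl g := by simp [hS, Sw, h0]
  have hS1 : S l1 = FreeGroup.invRev (zl g) := by simp [hS, Sw, h1]
  set y := lab V S (Pos.f l0 k0) with hy
  have hy' : y = (zl g).getD k0 (0, true) := by rw [hy]; simp [lab, hS0]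
  have hymem : y ∈ zl g := by
    rw [hy']; exact getD_mem (by rw [← hS0]; exact hf0.2)
  obtain ⟨T, D, hTD⟩ := List.append_of_mem hymem
  set c : F := (FreeGroup.mk T)⁻¹ * (FreeGroup.mk D)⁻¹ with hc
  set val := rval V S O y c with hvaldef
  have hinvO : ∀ x ∈ P, (x ∈ O ↔ p x ∈ O) := by
    intro x hx
    constructor
    · exact hO.pair x
    · intro h
      have := hO.pair _ h
      rwa [(hp x hx).2.1] at this
  have hv1 : ∀ k ∈ P, val (p k) = (val k)⁻¹ := by
    intro k hk
    exact rval_inv (hinvO k hk) (hp k hk).2.2 (fun h => hO.labs k h)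
  have hv2 : ∀ y k, val (Pos.t y k false) = (val (Pos.t y k true))⁻¹ := by
    intro z k
    refine rval_inv ?_ ?_ ?_
    · constructor
      · intro h; exact hO.twin _ h
      · intro h; exact hO.twin _ h
    · simp [lab]
    · intro h; exact hO.labs _ h
  have hres := hval F val hv1 hv2
  rw [evalQ_allQ] at hres
  -- the faces
  have hl01 : l0 ≠ l1 := by
    intro h; rw [h, h1] at h0; exact absurd h0 (by simp)
  have hface : ∀ l k, Pos.f l k ∈ O → (l = l0 ∧ k = k0) ∨ (l = l1 ∧ k = k1) := by
    intro l k h
    rcases hO.faces _ h trivial with h | h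
    · injection h with h2 h3; exact Or.inl ⟨h2, h3⟩
    · injection h with h2 h3; exact Or.inr ⟨h2, h3⟩
  have hother : ∀ l, l ≠ l0 → l ≠ l1 → newS S val l = zs g (sg l) := by
    intro l hl0 hl1
    rw [← mk_Sw g sg l, ← hS, mk_eq_prod]
    unfold newS
    rw [← map_range_getD (S l) (fun x => (FreeGroup.mk [x] : F))]
    congr 1
    apply List.map_congr_left
    intro k _
    have : Pos.f l k ∉ O := by
      intro h
      rcases hface l k h with h | h
      · exact hl0 h.1
      · exact hl1 h.1
    simp only [hvaldef, rval, this, if_false, lab]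
  have hz0 : newS S val l0 = 1 := by
    have e : newS S val l0 = ((zl g).map (fun x => if x = y then c else FreeGroup.mk [x])).prod := by
      unfold newS
      rw [← map_range_getD (zl g) (fun x => if x = y then c else (FreeGroup.mk [x] : F)), hS0]
      congr 1
      apply List.map_congr_left
      intro k hk
      have hk' : k < (zl g).length := List.mem_range.1 hk
      have hlab : lab V S (Pos.f l0 k) = (zl g).getD k (0, true) := by simp [lab, hS0]
      by_cases hkk : k = k0
      · subst hkk
        have : Pos.f l0 k ∈ O := hO.mem0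
        simp only [hvaldef, rval, this, if_true, hlab, ← hy']
      · have h3 : Pos.f l0 k ∉ O := by
          intro h
          rcases hface l0 k h with h | h
          · exact hkk h.2
          · exact hl01 h.1
        have h4 : (zl g).getD k (0, true) ≠ y := by
          intro h
          rw [hy'] at h
          exact hkk (getD_inj (nodup_zl g) hk' (by rw [← hS0]; exact hf0.2) h)
        simp only [hvaldef, rval, h3, if_false, hlab, h4]
    rw [e, prod_replace (zl g) T D y hTD (nodup_zl g) c, hc]
    group
  have hrev : FreeGroup.invRev (zl g) = FreeGroup.invRev D ++ flipL y :: FreeGroup.invRev T := by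
    rw [hTD]
    simp [FreeGroup.invRev, flipL]
  have hndrev : (FreeGroup.invRev (zl g)).Nodup := by
    unfold FreeGroup.invRev
    rw [List.nodup_reverse]
    refine List.Nodup.map ?_ (nodup_zl g)
    intro x x' h
    have h1 := congrArg Prod.fst h
    have h2 := congrArg Prod.snd h
    simp at h1 h2
    exact Prod.ext h1 h2
  have hz1 : newS S val l1 = 1 := by
    have hlab1 : lab V S (Pos.f l1 k1) = flipL y := hO.lab1
    have hlab1' : (FreeGroup.invRev (zl g)).getD k1 (0, true) = flipL y := by
      rw [← hlab1]; simp [lab, hS1]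
    have e : newS S val l1 =
        ((FreeGroup.invRev (zl g)).map (fun x => if x = flipL y then c⁻¹ else FreeGroup.mk [x])).prod := by
      unfold newS
      rw [← map_range_getD (FreeGroup.invRev (zl g))
        (fun x => if x = flipL y then c⁻¹ else (FreeGroup.mk [x] : F)), hS1]
      congr 1
      apply List.map_congr_left
      intro k hk
      have hk' : k < (FreeGroup.invRev (zl g)).length := List.mem_range.1 hk
      have hlab : lab V S (Pos.f l1 k) = (FreeGroup.invRev (zl g)).getD k (0, true) := by
        simp [lab, hS1]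
      by_cases hkk : k = k1
      · subst hkk
        have : Pos.f l1 k ∈ O := hO.mem1
        simp only [hvaldef, rval, this, if_true, hlab, hlab1', flipL_ne y, if_false]
      · have h3 : Pos.f l1 k ∉ O := by
          intro h
          rcases hface l1 k h with h | h
          · exact hl01 h.1.symm
          · exact hkk h.2
        have h4 : (FreeGroup.invRev (zl g)).getD k (0, true) ≠ flipL y := by
          intro h
          rw [← hlab1'] at h
          exact hkk (getD_inj hndrev hk' (by rw [← hS1]; exact hf1.2) h)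
        simp only [hvaldef, rval, h3, if_false, hlab, h4]
    rw [e, prod_replace _ _ _ _ hrev hndrev c⁻¹, hc, ← FreeGroup.inv_mk, ← FreeGroup.inv_mk]
    group
  -- the variables
  refine ⟨newV V val, fun l => newV V val (2 * g + l), ?_, ?_⟩
  · intro z hz
    have hq : (QuotientGroup.mk' (Subgroup.normalClosure {zeta 0 g}) (newV V val z)) =
        QuotientGroup.mk' (Subgroup.normalClosure {zeta 0 g}) (X z) := by
      have hX : X z = ((List.range (V z).length).map
          (fun k => (FreeGroup.mk [lab V S (Pos.t z k true)] : F))).prod := by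
        rw [← mk_Vw_lt g X U hz, ← hV, mk_eq_prod]
        rw [← map_range_getD (V z) (fun x => (FreeGroup.mk [x] : F))]
        rfl
      rw [hX]
      unfold newV
      rw [map_list_prod, map_list_prod, List.map_map, List.map_map]
      congr 1
      apply List.map_congr_left
      intro k _
      simp only [Function.comp]
      have hcy : QuotientGroup.mk' (Subgroup.normalClosure {zeta 0 g}) c =
          QuotientGroup.mk' (Subgroup.normalClosure {zeta 0 g}) (FreeGroup.mk [y]) := by
        have hz : QuotientGroup.mk' (Subgroup.normalClosure {zeta 0 g}) (zeta 0 g) = 1 := by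
          rw [← MonoidHom.mem_ker, QuotientGroup.ker_mk']
          exact Subgroup.subset_normalClosure (by simp)
        have hzz : zeta 0 g = FreeGroup.mk T * (FreeGroup.mk [y] * FreeGroup.mk D) := by
          rw [FreeGroup.mul_mk, FreeGroup.mul_mk, ← mk_zl, hTD]
          simp
        have hz2 : QuotientGroup.mk' (Subgroup.normalClosure {zeta 0 g})
            (FreeGroup.mk T * (FreeGroup.mk [y] * FreeGroup.mk D)) = 1 :=
          (congrArg (QuotientGroup.mk' (Subgroup.normalClosure {zeta 0 g})) hzz.symm).trans hz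
        generalize QuotientGroup.mk' (Subgroup.normalClosure {zeta 0 g}) = q at hz2 ⊢
        rw [map_mul, map_mul] at hz2
        rw [hc, map_mul, map_inv, map_inv]
        generalize q (FreeGroup.mk T) = t at hz2 ⊢
        generalize q (FreeGroup.mk D) = s at hz2 ⊢
        generalize q (FreeGroup.mk [y]) = u at hz2 ⊢
        have : u = t⁻¹ * (t * (u * s)) * s⁻¹ := by group
        rw [this, hz2]; group
      by_cases h : Pos.t z k true ∈ O
      · rcases hO.labs _ h with h5 | h5
        · have h5 : lab V S (Pos.t z k true) = y := h5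
          simp only [hvaldef, rval, h, if_true]
          rw [h5, if_pos rfl]
          exact hcy
        · have h5 : lab V S (Pos.t z k true) = flipL y := h5
          simp only [hvaldef, rval, h, if_true]
          rw [h5, if_neg (flipL_ne _), mk_flip, map_inv, map_inv]
          exact congrArg _ hcy
      · simp only [hvaldef, rval, h, if_false]
    have : QuotientGroup.mk' (Subgroup.normalClosure {zeta 0 g}) (newV V val z * (X z)⁻¹) = 1 := by
      rw [map_mul, map_inv, hq, mul_inv_cancel]
    rwa [← MonoidHom.mem_ker, QuotientGroup.ker_mk'] at this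
  · refine Eq.trans ?_ hres
    congr 2
    apply List.map_congr_left
    intro l _
    by_cases hl0 : l = l0
    · subst hl0; simp [hz0]
    by_cases hl1 : l = l1
    · subst hl1; simp [hz1]
    simp only [hl0, hl1, or_self, if_false]
    rw [hother l hl0 hl1]

end Pool.Agent.Torelli.C
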