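import Pool.Agent.Torelli.C.Strings
import Pool.Agent.Torelli.Defs

/-!
# Torelli / C / State : the relation `prod [X(2j), X(2j+1)] * prod u_l zeta^(+-1) u_l^-1 = 1` as a product of syllables
-/

set_option autoImplicit false

namespace Pool.Agent.Torelli.C

/-- The word of `zeta 0 g`. -/
def zl (g : ℕ) : List (ℕ × Bool) :=
  (List.range g).flatMap fun j => [(2 * j, true), (2 * j + 1, true), (2 * j, false), (2 * j + 1, false)]

/-- The product of commutators of a sequence. -/
def comP {G : Type*} [Group G] (X : ℕ → G) (g : ℕ) : G :=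
  ((List.range g).map fun j => X (2 * j) * X (2 * j + 1) * (X (2 * j))⁻¹ * (X (2 * j + 1))⁻¹).prod

/-- The syllables of the handles. -/
def handQ (g : ℕ) : List Syl :=
  (List.range g).flatMap fun j => [Syl.v (2 * j) true, Syl.v (2 * j + 1) true,
    Syl.v (2 * j) false, Syl.v (2 * j + 1) false]

/-- The syllables of the faces. -/
def faceQ (g n : ℕ) : List Syl :=
  (List.range n).flatMap fun l => [Syl.v (2 * g + l) true, Syl.face l, Syl.v (2 * g + l) false]

/-- All syllables. -/
def allQ (g n : ℕ) : List Syl := handQ g ++ faceQ g n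

theorem comP_succ {G : Type*} [Group G] (X : ℕ → G) (g : ℕ) :
    comP X (g + 1) = comP X g * (X (2 * g) * X (2 * g + 1) * (X (2 * g))⁻¹ * (X (2 * g + 1))⁻¹) := by
  simp [comP, List.range_succ]

theorem zl_succ (g : ℕ) : zl (g + 1) = zl g ++
    [(2 * g, true), (2 * g + 1, true), (2 * g, false), (2 * g + 1, false)] := by
  simp [zl, List.range_succ]

theorem mem_zl (g n : ℕ) (c : Bool) : (n, c) ∈ zl g ↔ n < 2 * g := by
  induction g with
  | zero => simp [zl]
  | succ g ih =>
    rw [zl_succ, List.mem_append, ih]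
    cases c <;> simp <;> omega

theorem nodup_zl (g : ℕ) : (zl g).Nodup := by
  induction g with
  | zero => simp [zl]
  | succ g ih =>
    rw [zl_succ, List.nodup_append]
    refine ⟨ih, by simp, ?_⟩
    intro x hx y hy hxy
    subst hxy
    obtain ⟨n, c⟩ := x
    have h1 := (mem_zl g n c).1 hx
    simp at hy
    omega

theorem length_zl (g : ℕ) : (zl g).length = 4 * g := by
  induction g with
  | zero => simp [zl]
  | succ g ih => rw [zl_succ, List.length_append, ih]; simp; ring

theorem lift_zl {G : Type*} [Group G] (X : ℕ → G) (g : ℕ) :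
    FreeGroup.lift X (FreeGroup.mk (zl g)) = comP X g := by
  induction g with
  | zero => simp [zl, comP]
  | succ g ih =>
    rw [zl_succ, ← FreeGroup.mul_mk, map_mul, ih, comP_succ]
    simp [mul_assoc]

theorem mk_zl (g : ℕ) : FreeGroup.mk (zl g) = zeta 0 g := by
  have h := lift_zl FreeGroup.of g
  rw [show FreeGroup.lift (FreeGroup.of : ℕ → FreeGroup ℕ) = MonoidHom.id _ from by
    ext n; simp] at h
  simp only [MonoidHom.id_apply] at h
  rw [h]
  unfold comP zeta
  congr 1
  apply List.map_congr_left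
  intro j _
  simp [H, a, b]

theorem zeta_eq_comP (g : ℕ) : zeta 0 g = comP FreeGroup.of g := by
  have h := lift_zl FreeGroup.of g
  rw [show FreeGroup.lift (FreeGroup.of : ℕ → FreeGroup ℕ) = MonoidHom.id _ from by
    ext n; simp] at h
  simp only [MonoidHom.id_apply] at h
  rw [← mk_zl, h]

theorem evalQ_append {G : Type*} [Group G] (vy fy : ℕ → G) (Q Q' : List Syl) :
    evalQ vy fy (Q ++ Q') = evalQ vy fy Q * evalQ vy fy Q' := by
  simp [evalQ]

theorem evalQ_handQ {G : Type*} [Group G] (vy fy : ℕ → G) (g : ℕ) :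
    evalQ vy fy (handQ g) = comP vy g := by
  induction g with
  | zero => simp [handQ, evalQ, comP]
  | succ g ih =>
    have : handQ (g + 1) = handQ g ++ [Syl.v (2 * g) true, Syl.v (2 * g + 1) true,
        Syl.v (2 * g) false, Syl.v (2 * g + 1) false] := by
      simp [handQ, List.range_succ]
    rw [this, evalQ_append, ih, comP_succ]
    simp [evalQ, evalSyl, mul_assoc]

theorem evalQ_faceQ {G : Type*} [Group G] (vy fy : ℕ → G) (g n : ℕ) :
    evalQ vy fy (faceQ g n) =
      ((List.range n).map fun l => vy (2 * g + l) * fy l * (vy (2 * g + l))⁻¹).prod := by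
  induction n with
  | zero => simp [faceQ, evalQ]
  | succ n ih =>
    have : faceQ g (n + 1) = faceQ g n ++ [Syl.v (2 * g + n) true, Syl.face n,
        Syl.v (2 * g + n) false] := by
      simp [faceQ, List.range_succ]
    rw [this, evalQ_append, ih, List.range_succ, List.map_append, List.prod_append]
    simp [evalQ, evalSyl, mul_assoc]

theorem evalQ_allQ {G : Type*} [Group G] (vy fy : ℕ → G) (g n : ℕ) :
    evalQ vy fy (allQ g n) = comP vy g *
      ((List.range n).map fun l => vy (2 * g + l) * fy l * (vy (2 * g + l))⁻¹).prod := by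
  rw [allQ, evalQ_append, evalQ_handQ, evalQ_faceQ]

theorem mem_handQ (g : ℕ) (s : Syl) : s ∈ handQ g ↔ ∃ y c, s = Syl.v y c ∧ y < 2 * g := by
  induction g with
  | zero => simp [handQ]
  | succ g ih =>
    have : handQ (g + 1) = handQ g ++ [Syl.v (2 * g) true, Syl.v (2 * g + 1) true,
        Syl.v (2 * g) false, Syl.v (2 * g + 1) false] := by
      simp [handQ, List.range_succ]
    rw [this, List.mem_append, ih]
    constructor
    · rintro (⟨y, c, rfl, h⟩ | h)
      · exact ⟨y, c, rfl, by omega⟩
      · simp at h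
        rcases h with rfl | rfl | rfl | rfl
        · exact ⟨_, _, rfl, by omega⟩
        · exact ⟨_, _, rfl, by omega⟩
        · exact ⟨_, _, rfl, by omega⟩
        · exact ⟨_, _, rfl, by omega⟩
    · rintro ⟨y, c, rfl, h⟩
      by_cases hy : y < 2 * g
      · exact Or.inl ⟨y, c, rfl, hy⟩
      · right
        have : y = 2 * g ∨ y = 2 * g + 1 := by omega
        rcases this with rfl | rfl <;> cases c <;> simp

theorem mem_faceQ (g n : ℕ) (s : Syl) : s ∈ faceQ g n ↔
    (∃ l, l < n ∧ s = Syl.face l) ∨ ∃ l c, l < n ∧ s = Syl.v (2 * g + l) c := by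
  simp only [faceQ, List.mem_flatMap, List.mem_range]
  constructor
  · rintro ⟨l, hl, h⟩
    simp at h
    rcases h with rfl | rfl | rfl
    · exact Or.inr ⟨l, true, hl, rfl⟩
    · exact Or.inl ⟨l, hl, rfl⟩
    · exact Or.inr ⟨l, false, hl, rfl⟩
  · rintro (⟨l, hl, rfl⟩ | ⟨l, c, hl, rfl⟩)
    · exact ⟨l, hl, by simp⟩
    · exact ⟨l, hl, by cases c <;> simp⟩

theorem face_mem_allQ (g n l : ℕ) : Syl.face l ∈ allQ g n ↔ l < n := by
  rw [allQ, List.mem_append, mem_handQ, mem_faceQ]
  constructor
  · rintro (⟨y, c, h, _⟩ | ⟨l', hl, h⟩ | ⟨l', c, hl, h⟩)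
    · exact absurd h (by simp)
    · injection h with h; omega
    · exact absurd h (by simp)
  · intro h
    exact Or.inr (Or.inl ⟨l, h, rfl⟩)

theorem v_mem_allQ (g n y : ℕ) (c : Bool) : Syl.v y c ∈ allQ g n ↔ y < 2 * g + n := by
  rw [allQ, List.mem_append, mem_handQ, mem_faceQ]
  constructor
  · rintro (⟨y', c', h, h'⟩ | ⟨l', hl, h⟩ | ⟨l', c', hl, h⟩)
    · injection h with h1 h2; omega
    · exact absurd h (by simp)
    · injection h with h1 h2; omega
  · intro h
    by_cases hy : y < 2 * g
    · exact Or.inl ⟨y, c, rfl, hy⟩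
    · exact Or.inr (Or.inr ⟨y - 2 * g, c, by omega, by congr 1; omega⟩)

theorem nodup_allQ (g n : ℕ) : (allQ g n).Nodup := by
  have h1 : (handQ g).Nodup := by
    induction g with
    | zero => simp [handQ]
    | succ g ih =>
      have : handQ (g + 1) = handQ g ++ [Syl.v (2 * g) true, Syl.v (2 * g + 1) true,
          Syl.v (2 * g) false, Syl.v (2 * g + 1) false] := by
        simp [handQ, List.range_succ]
      rw [this, List.nodup_append]
      refine ⟨ih, by simp, ?_⟩
      intro x hx y hy hxy
      subst hxy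
      obtain ⟨z, c, rfl, hz⟩ := (mem_handQ g x).1 hx
      simp at hy
      omega
  have h2 : (faceQ g n).Nodup := by
    induction n with
    | zero => simp [faceQ]
    | succ n ih =>
      have : faceQ g (n + 1) = faceQ g n ++ [Syl.v (2 * g + n) true, Syl.face n,
          Syl.v (2 * g + n) false] := by
        simp [faceQ, List.range_succ]
      rw [this, List.nodup_append]
      refine ⟨ih, by simp, ?_⟩
      intro x hx y hy hxy
      subst hxy
      rcases (mem_faceQ g n x).1 hx with ⟨l, hl, rfl⟩ | ⟨l, c, hl, rfl⟩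
      · simp at hy; omega
      · simp at hy; omega
  rw [allQ, List.nodup_append]
  refine ⟨h1, h2, ?_⟩
  intro x hx y hy hxy
  subst hxy
  obtain ⟨z, c, rfl, hz⟩ := (mem_handQ g x).1 hx
  rcases (mem_faceQ g n _).1 hy with ⟨l, hl, h⟩ | ⟨l, c', hl, h⟩
  · exact absurd h (by simp)
  · injection h with h1 h2; omega

end Pool.Agent.Torelli.C
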