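import Pool.Agent.Torelli.C.Transfer

/-!
# Torelli / C / Strings : the string that starts at a face letter
-/

set_option autoImplicit false

namespace Pool.Agent.Torelli.C

/-- The twin of a position: the same letter in the other occurrence of the variable. -/
def tw : Pos → Pos
  | Pos.t y k c => Pos.t y k (!c)
  | Pos.f l k => Pos.f l k

/-- Face positions. -/
def IsF : Pos → Prop
  | Pos.t _ _ _ => False
  | Pos.f _ _ => True

@[simp] theorem tw_tw (x : Pos) : tw (tw x) = x := by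
  cases x <;> simp [tw]

theorem isF_tw (x : Pos) : IsF (tw x) ↔ IsF x := by
  cases x <;> simp [tw, IsF]

theorem tw_of_isF {x : Pos} (h : IsF x) : tw x = x := by
  cases x with
  | t y k c => exact absurd h (by simp [IsF])
  | f l k => rfl

theorem tw_inj {x y : Pos} (h : tw x = tw y) : x = y := by
  rw [← tw_tw x, h, tw_tw]

section
variable (V S : ℕ → List (ℕ × Bool)) (Q : List Syl)

theorem lab_tw {x : Pos} (h : ¬ IsF x) : lab V S (tw x) = flipL (lab V S x) := by
  cases x with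
  | t y k c => cases c <;> simp [tw, lab]
  | f l k => exact absurd trivial h

theorem tw_mem (hQ : ∀ y c, Syl.v y c ∈ Q → Syl.v y (!c) ∈ Q) {x : Pos} (h : x ∈ posQ V S Q) :
    tw x ∈ posQ V S Q := by
  cases x with
  | t y k c =>
    rw [mem_posQ_t] at h
    exact (mem_posQ_t V S Q y k (!c)).2 ⟨hQ y c h.1, h.2⟩
  | f l k => exact h

/-- The walk along the string. -/
def walk (p : Pos → Pos) (f0 : Pos) : ℕ → Pos
  | 0 => f0
  | i + 1 => tw (p (walk p f0 i))

/-- `O` is the string that joins the face positions `f0` and `f1`. -/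
structure IsStr (p : Pos → Pos) (O : Set Pos) (f0 f1 : Pos) : Prop where
  sub : ∀ x ∈ O, x ∈ posQ V S Q
  mem0 : f0 ∈ O
  mem1 : f1 ∈ O
  isF0 : IsF f0
  isF1 : IsF f1
  lab1 : lab V S f1 = flipL (lab V S f0)
  pair : ∀ x ∈ O, p x ∈ O
  twin : ∀ x ∈ O, tw x ∈ O
  faces : ∀ x ∈ O, IsF x → x = f0 ∨ x = f1
  labs : ∀ x ∈ O, lab V S x = lab V S f0 ∨ lab V S x = flipL (lab V S f0)

variable {V S Q}

theorem exists_string {p : Pos → Pos}
    (hp : ∀ k ∈ posQ V S Q, p k ∈ posQ V S Q ∧ p (p k) = k ∧ lab V S (p k) = flipL (lab V S k))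
    (hQ : ∀ y c, Syl.v y c ∈ Q → Syl.v y (!c) ∈ Q) (f0 : Pos) (hf0 : f0 ∈ posQ V S Q)
    (hface : IsF f0) :
    ∃ (O : Set Pos) (f1 : Pos), (∀ x ∈ O, x ∈ posQ V S Q) ∧ f0 ∈ O ∧ f1 ∈ O ∧ IsF f1 ∧
      lab V S f1 = flipL (lab V S f0) ∧ (∀ x ∈ O, p x ∈ O) ∧ (∀ x ∈ O, tw x ∈ O) ∧
      (∀ x ∈ O, IsF x → x = f0 ∨ x = f1) ∧
      (∀ x ∈ O, lab V S x = lab V S f0 ∨ lab V S x = flipL (lab V S f0)) ∧
      (∀ K : Set Pos, (∀ x ∈ K, x ∈ posQ V S Q → p x ∈ K) → (∀ x ∈ K, tw x ∈ K) →
        (∃ x ∈ O, x ∈ K) → f0 ∈ K) := by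
  set o := walk p f0 with ho
  have o0 : o 0 = f0 := rfl
  have os : ∀ i, o (i + 1) = tw (p (o i)) := fun i => rfl
  have hmem : ∀ i, o i ∈ posQ V S Q := by
    intro i
    induction i with
    | zero => exact hf0
    | succ i ih => rw [os]; exact tw_mem V S Q hQ (hp _ ih).1
  have hex : ∃ i, IsF (p (o i)) := by
    by_contra hno
    push Not at hno
    have hnf : ∀ i, ¬ IsF (o (i + 1)) := by
      intro i; rw [os, isF_tw]; exact hno i
    have hinj : ∀ i j, o i = o j → i = j := by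
      intro i
      induction i with
      | zero =>
        intro j hj
        cases j with
        | zero => rfl
        | succ j => exact absurd (hj ▸ hface : IsF (o (j + 1))) (hnf j)
      | succ i ih =>
        intro j hj
        cases j with
        | zero => exact absurd (hj.symm ▸ hface : IsF (o (i + 1))) (hnf i)
        | succ j =>
          have h1 : p (o i) = p (o j) := tw_inj (by rw [← os, ← os]; exact hj)
          have h2 : o i = o j := by
            rw [← (hp _ (hmem i)).2.1, h1, (hp _ (hmem j)).2.1]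
          rw [ih j h2]
    have hfin : Finite {x // x ∈ posQ V S Q} := by
      have : Finite (↑(posQ V S Q).toFinset) := by infer_instance
      refine Finite.of_injective (β := ↑(posQ V S Q).toFinset)
        (fun x => ⟨x.1, by simp [x.2]⟩) ?_
      intro x y hxy
      simp only [Subtype.mk.injEq] at hxy
      exact Subtype.ext hxy
    have hi : Function.Injective (fun i : ℕ => (⟨o i, hmem i⟩ : {x // x ∈ posQ V S Q})) := by
      intro i j hij
      simp only [Subtype.mk.injEq] at hij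
      exact hinj i j hij
    exact not_injective_infinite_finite _ hi
  classical
  obtain ⟨r, hr, hrmin⟩ : ∃ r, IsF (p (o r)) ∧ ∀ i < r, ¬ IsF (p (o i)) :=
    ⟨Nat.find hex, Nat.find_spec hex, fun i hi => Nat.find_min hex hi⟩
  have hnf : ∀ i, i < r → ¬ IsF (o (i + 1)) := by
    intro i hi; rw [os, isF_tw]; exact hrmin i hi
  have hlab : ∀ i, i ≤ r → lab V S (o i) = lab V S f0 := by
    intro i
    induction i with
    | zero => intro _; rfl
    | succ i ih =>
      intro hi
      rw [os, lab_tw V S (hrmin i (by omega)), (hp _ (hmem i)).2.2, flipL_flipL, ih (by omega)]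
  refine ⟨{x | ∃ i ≤ r, x = o i ∨ x = p (o i)}, p (o r), ?_, ?_, ?_, hr, ?_, ?_, ?_, ?_, ?_, ?_⟩
  · rintro x ⟨i, _, rfl | rfl⟩
    · exact hmem i
    · exact (hp _ (hmem i)).1
  · exact ⟨0, Nat.zero_le _, Or.inl rfl⟩
  · exact ⟨r, le_rfl, Or.inr rfl⟩
  · rw [(hp _ (hmem r)).2.2, hlab r le_rfl]
  · rintro x ⟨i, hi, rfl | rfl⟩
    · exact ⟨i, hi, Or.inr rfl⟩
    · exact ⟨i, hi, Or.inl (hp _ (hmem i)).2.1⟩
  · rintro x ⟨i, hi, rfl | rfl⟩
    · cases i with
      | zero => rw [o0, tw_of_isF hface]; exact ⟨0, Nat.zero_le _, Or.inl rfl⟩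
      | succ i => rw [os, tw_tw]; exact ⟨i, by omega, Or.inr rfl⟩
    · rcases Nat.lt_or_ge i r with h | h
      · exact ⟨i + 1, h, Or.inl (os i).symm⟩
      · have : i = r := le_antisymm hi h
        subst this
        rw [tw_of_isF hr]; exact ⟨i, le_rfl, Or.inr rfl⟩
  · rintro x ⟨i, hi, rfl | rfl⟩ hx
    · cases i with
      | zero => exact Or.inl rfl
      | succ i => exact absurd hx (hnf i (by omega))
    · rcases Nat.lt_or_ge i r with h | h
      · exact absurd hx (hrmin i h)
      · have : i = r := le_antisymm hi h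
        subst this
        exact Or.inr rfl
  · rintro x ⟨i, hi, rfl | rfl⟩
    · exact Or.inl (hlab i hi)
    · right
      rw [(hp _ (hmem i)).2.2, hlab i hi]
  · intro K hK1 hK2
    have key : ∀ i, o i ∈ K → f0 ∈ K := by
      intro i
      induction i with
      | zero => intro h; exact h
      | succ i ih =>
        intro h
        have h1 := hK2 _ h
        rw [os, tw_tw] at h1
        have h2 := hK1 _ h1 (hp _ (hmem i)).1
        rw [(hp _ (hmem i)).2.1] at h2
        exact ih h2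
    rintro ⟨x, ⟨i, hi, rfl | rfl⟩, hx⟩
    · exact key i hx
    · have h2 := hK1 _ hx (hp _ (hmem i)).1
      rw [(hp _ (hmem i)).2.1] at h2
      exact key i h2

theorem exists_isStr {p : Pos → Pos}
    (hp : ∀ k ∈ posQ V S Q, p k ∈ posQ V S Q ∧ p (p k) = k ∧ lab V S (p k) = flipL (lab V S k))
    (hQ : ∀ y c, Syl.v y c ∈ Q → Syl.v y (!c) ∈ Q) (f0 : Pos) (hf0 : f0 ∈ posQ V S Q)
    (hface : IsF f0) : ∃ (O : Set Pos) (f1 : Pos), IsStr V S Q p O f0 f1 := by
  obtain ⟨O, f1, h1, h2, h3, h4, h5, h6, h7, h8, h9, _⟩ := exists_string hp hQ f0 hf0 hface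
  exact ⟨O, f1, h1, h2, h3, hface, h4, h5, h6, h7, h8, h9⟩

end

end Pool.Agent.Torelli.C
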