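import Pool.Agent.Torelli.C.Pairing

/-!
# Torelli / C / Transfer : the transfer principle for a product of syllables

`Q` is a list of syllables: variables `v y true`, their inverses `v y false`, and faces `face l`.
`V y`, `S l` are the words of the variables and faces.  If the product of the values is `1` in the free
group, the positions are paired (non-crossing), and the letters may be replaced by arbitrary group elements
that are compatible with the pairing and with the two occurrences of every variable.
-/

set_option autoImplicit false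

namespace Pool.Agent.Torelli.C

/-- Positions: letter `k` of the variable `y` in its occurrence `c`, or letter `k` of the face `l`. -/
inductive Pos where
  | t (y k : ℕ) (c : Bool)
  | f (l k : ℕ)
  deriving DecidableEq

/-- Syllables. -/
inductive Syl where
  | v (y : ℕ) (c : Bool)
  | face (l : ℕ)
  deriving DecidableEq

/-- The positions of a syllable. -/
def posOf (V S : ℕ → List (ℕ × Bool)) : Syl → List Pos
  | Syl.v y true => (List.range (V y).length).map (fun k => Pos.t y k true)
  | Syl.v y false => ((List.range (V y).length).reverse).map (fun k => Pos.t y k false)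
  | Syl.face l => (List.range (S l).length).map (fun k => Pos.f l k)

/-- The label of a position. -/
def lab (V S : ℕ → List (ℕ × Bool)) : Pos → ℕ × Bool
  | Pos.t y k true => (V y).getD k (0, true)
  | Pos.t y k false => flipL ((V y).getD k (0, true))
  | Pos.f l k => (S l).getD k (0, true)

/-- The value of a syllable. -/
def evalSyl {G : Type*} [Group G] (vy fy : ℕ → G) : Syl → G
  | Syl.v y true => vy y
  | Syl.v y false => (vy y)⁻¹
  | Syl.face l => fy l

/-- The value of a product of syllables. -/
def evalQ {G : Type*} [Group G] (vy fy : ℕ → G) (Q : List Syl) : G := (Q.map (evalSyl vy fy)).prod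

/-- New value of a variable. -/
def newV {G : Type*} [Group G] (V : ℕ → List (ℕ × Bool)) (val : Pos → G) (y : ℕ) : G :=
  ((List.range (V y).length).map (fun k => val (Pos.t y k true))).prod

/-- New value of a face. -/
def newS {G : Type*} [Group G] (S : ℕ → List (ℕ × Bool)) (val : Pos → G) (l : ℕ) : G :=
  ((List.range (S l).length).map (fun k => val (Pos.f l k))).prod

/-- All positions. -/
def posQ (V S : ℕ → List (ℕ × Bool)) (Q : List Syl) : List Pos := Q.flatMap (posOf V S)

section
variable (V S : ℕ → List (ℕ × Bool))

theorem mem_posOf_t (y k : ℕ) (c : Bool) (s : Syl) :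
    Pos.t y k c ∈ posOf V S s ↔ s = Syl.v y c ∧ k < (V y).length := by
  cases s with
  | v y' c' =>
    cases c' <;> simp only [posOf, List.mem_map, List.mem_range, List.mem_reverse] <;>
    · constructor
      · rintro ⟨k', hk', h⟩
        injection h with h1 h2 h3
        subst h1 h2 h3
        exact ⟨rfl, hk'⟩
      · rintro ⟨h, hk⟩
        injection h with h1 h2
        subst h1 h2
        exact ⟨k, hk, rfl⟩
  | face l =>
    simp [posOf]

theorem mem_posOf_f (l k : ℕ) (s : Syl) :
    Pos.f l k ∈ posOf V S s ↔ s = Syl.face l ∧ k < (S l).length := by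
  cases s with
  | v y' c' => cases c' <;> simp [posOf]
  | face l' =>
    simp only [posOf, List.mem_map, List.mem_range]
    constructor
    · rintro ⟨k', hk', h⟩
      injection h with h1 h2
      subst h1 h2
      exact ⟨rfl, hk'⟩
    · rintro ⟨h, hk⟩
      injection h with h1
      subst h1
      exact ⟨k, hk, rfl⟩

theorem mem_posQ_t (Q : List Syl) (y k : ℕ) (c : Bool) :
    Pos.t y k c ∈ posQ V S Q ↔ Syl.v y c ∈ Q ∧ k < (V y).length := by
  simp only [posQ, List.mem_flatMap, mem_posOf_t]
  constructor
  · rintro ⟨s, hs, rfl, hk⟩; exact ⟨hs, hk⟩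
  · rintro ⟨hs, hk⟩; exact ⟨_, hs, rfl, hk⟩

theorem mem_posQ_f (Q : List Syl) (l k : ℕ) :
    Pos.f l k ∈ posQ V S Q ↔ Syl.face l ∈ Q ∧ k < (S l).length := by
  simp only [posQ, List.mem_flatMap, mem_posOf_f]
  constructor
  · rintro ⟨s, hs, rfl, hk⟩; exact ⟨hs, hk⟩
  · rintro ⟨hs, hk⟩; exact ⟨_, hs, rfl, hk⟩

theorem nodup_posOf (s : Syl) : (posOf V S s).Nodup := by
  cases s with
  | v y c =>
    cases c
    · refine List.Nodup.map ?_ (List.nodup_reverse.2 List.nodup_range)
      intro k k' h; injection h
    · refine List.Nodup.map ?_ List.nodup_range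
      intro k k' h; injection h
  | face l =>
    refine List.Nodup.map ?_ List.nodup_range
    intro k k' h; injection h

theorem nodup_posQ (Q : List Syl) (hQ : Q.Nodup) : (posQ V S Q).Nodup := by
  unfold posQ
  rw [List.nodup_flatMap]
  refine ⟨fun s _ => nodup_posOf V S s, ?_⟩
  refine List.Pairwise.imp ?_ hQ
  intro s s' hss
  rw [Function.onFun, List.disjoint_left]
  intro p hp hp'
  cases p with
  | t y k c =>
    rw [mem_posOf_t] at hp hp'
    exact hss (hp.1.trans hp'.1.symm)
  | f l k =>
    rw [mem_posOf_f] at hp hp'
    exact hss (hp.1.trans hp'.1.symm)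

theorem prod_posOf {G : Type*} [Group G] (val : Pos → G)
    (hval : ∀ y k, val (Pos.t y k false) = (val (Pos.t y k true))⁻¹) (s : Syl) :
    ((posOf V S s).map val).prod = evalSyl (newV V val) (newS S val) s := by
  cases s with
  | v y c =>
    cases c
    · simp only [posOf, evalSyl, newV, List.map_map]
      rw [List.prod_inv_reverse, List.map_reverse, List.map_map]
      congr 2
      apply List.map_congr_left
      intro k _
      exact hval y k
    · simp only [posOf, evalSyl, newV, List.map_map]
      rfl
  | face l =>
    simp only [posOf, evalSyl, newS, List.map_map]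
    rfl

theorem prod_posQ {G : Type*} [Group G] (val : Pos → G)
    (hval : ∀ y k, val (Pos.t y k false) = (val (Pos.t y k true))⁻¹) (Q : List Syl) :
    ((posQ V S Q).map val).prod = evalQ (newV V val) (newS S val) Q := by
  induction Q with
  | nil => simp [posQ, evalQ]
  | cons s Q ih =>
    have : posQ V S (s :: Q) = posOf V S s ++ posQ V S Q := by simp [posQ]
    rw [this, List.map_append, List.prod_append, ih, prod_posOf V S val hval]
    simp [evalQ]

theorem mk_eq_prod (L : List (ℕ × Bool)) :
    FreeGroup.mk L = (L.map (fun x => FreeGroup.mk [x])).prod := by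
  induction L with
  | nil => rfl
  | cons x L ih =>
    rw [List.map_cons, List.prod_cons, ← ih]
    rfl

theorem range_getD (L : List (ℕ × Bool)) :
    (List.range L.length).map (fun k => L.getD k (0, true)) = L := by
  apply List.ext_getElem
  · simp
  · intro i h1 h2
    simp [List.getD, h2]

theorem mk_flip (x : ℕ × Bool) : (FreeGroup.mk [flipL x] : FreeGroup ℕ) = (FreeGroup.mk [x])⁻¹ := by
  obtain ⟨n, c⟩ := x
  rfl

/-- The transfer principle. -/
theorem transfer (Q : List Syl) (hQ : Q.Nodup)
    (h : evalQ (fun y => FreeGroup.mk (V y)) (fun l => FreeGroup.mk (S l)) Q = 1) :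
    ∃ p : Pos → Pos,
      (∀ k ∈ posQ V S Q, p k ∈ posQ V S Q ∧ p (p k) = k ∧ lab V S (p k) = flipL (lab V S k)) ∧
      ∀ (G : Type) [Group G] (val : Pos → G), (∀ k ∈ posQ V S Q, val (p k) = (val k)⁻¹) →
        (∀ y k, val (Pos.t y k false) = (val (Pos.t y k true))⁻¹) →
        evalQ (newV V val) (newS S val) Q = 1 := by
  have hmk : FreeGroup.mk ((posQ V S Q).map (lab V S)) = 1 := by
    rw [mk_eq_prod, List.map_map, ← h]
    have := prod_posQ V S (fun p => (FreeGroup.mk [lab V S p] : FreeGroup ℕ))
      (by intro y k; simp only [lab]; exact mk_flip _) Q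
    rw [show ((fun x => (FreeGroup.mk [x] : FreeGroup ℕ)) ∘ lab V S)
      = fun p => FreeGroup.mk [lab V S p] from rfl, this]
    congr 1
    · funext y
      unfold newV
      have e := range_getD (V y)
      conv_rhs => rw [← e]
      rw [mk_eq_prod, List.map_map]
      rfl
    · funext l
      unfold newS
      have e := range_getD (S l)
      conv_rhs => rw [← e]
      rw [mk_eq_prod, List.map_map]
      rfl
  obtain ⟨p, hp1, hp2⟩ := exists_pairing (lab V S) (posQ V S Q) (nodup_posQ V S Q hQ) hmk
  refine ⟨p, hp1, ?_⟩
  intro G _ val hv1 hv2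
  rw [← prod_posQ V S val hv2]
  exact hp2 G val hv1

end

end Pool.Agent.Torelli.C
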